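import Pool.Agent.H8.JS.Targets

/-!
# The running time for the rest of a row
-/

set_option autoImplicit false

namespace Pool.Agent.H77.JS

open Pool.Agent.H8.JS

theorem pf_c3 (hC1 : J_C1) : J_C3 := by
  intro r T U Hh Vv x i c y fr lr L N hN a
  induction a with
  | zero =>
    intro k w o hk
    rw [show N + 2 * 0 + 1 = N + 1 by omega, ru_iff]
    intro c' hc'
    have h1 : c' = ⟨.bck, i, c, 0, 0, k, y, k, w⟩ := hc'
    rw [h1, show k = L by omega]
    exact hN w
  | succ a ih =>
    intro k w o hk
    have h1 := (hC1 r T U Hh Vv x i c a k y k w fr lr o).2 (N + 2 * a + 1)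
      (fun t => ih (k + 1) _ (some t) (by omega))
    rw [show N + 2 * (a + 1) + 1 = N + 2 * a + 1 + 2 by omega]
    exact h1

end Pool.Agent.H77.JS
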