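import Pool.Agent.H8.JS.Targets

/-!
# One step of a machine in the encoding
-/

set_option autoImplicit false

namespace Pool.Agent.H77.JS

open Pool.Agent.H8.JS

theorem ex1_uniq {U : ℕ} {R : ℕ → Prop} {a b : ℕ} (h : Ex1 U R a) (h' : Ex1 U R b) (ha : a < U) :
    a = b := (h' a ha).1 ((h a ha).2 rfl)

theorem go_le_et (d : Mv) (p : ℕ) : d.go p ≤ p + 1 := by
  cases d <;> simp only [Mv.go] <;> omega

theorem pf_et : J_ET := by
  intro M eq es U E t c he hs heU hsU htU hhd hR
  constructor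
  · rintro ⟨⟨q, q', a, a', d⟩, hδ, h1, h2, h3⟩
    dsimp only at hδ h1 h2 h3
    have hq : q = c.q := he (ex1_uniq h1 hR.1 (heU q))
    choose p hpU p' hpU' hpp h4 h5 h6 h7 h8 using h3
    have hp : ∀ j, p j = c.hd j := fun j => ex1_uniq (h4 j) (hR.2 j).1 (hpU j)
    have ha : ∀ j, a j = c.tp j (c.hd j) := by
      intro j
      have h9 := (hR.2 j).2 (p j) (hpU j)
      have h10 := hs (ex1_uniq (h6 j) h9 (hsU _))
      rw [h10, hp j]
    have ha' : a = fun j => c.tp j (c.hd j) := funext ha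
    refine ⟨⟨q', fun j => (d j).go (c.hd j), fun j y => if y = c.hd j then a' j else c.tp j y⟩,
      ⟨a', d, ?_, fun j => rfl, fun j y => rfl⟩, ⟨h2, fun j => ⟨?_, ?_⟩⟩⟩
    · rw [hq, ha'] at hδ
      exact hδ
    · have h9 := h5 j
      rw [hpp j, hp j] at h9
      exact h9
    · intro y hy
      dsimp only
      by_cases hy' : y = c.hd j
      · rw [if_pos hy', hy', ← hp j]
        exact h7 j
      · rw [if_neg hy']
        intro s hsU'
        exact (h8 j y hy (by rw [hp j]; exact hy') s hsU').symm.trans ((hR.2 j).2 y hy s hsU')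
  · rintro ⟨c', ⟨a', d, hδ, h2, h3⟩, R'⟩
    refine ⟨(c.q, c'.q, fun j => c.tp j (c.hd j), a', d), hδ, hR.1, R'.1, fun j => ?_⟩
    have h4 : c.hd j < U := by
      have := hhd j
      omega
    have h5 : c'.hd j < U := by
      have h6 := hhd j
      have h7 := go_le_et (d j) (c.hd j)
      rw [← h2 j] at h7
      omega
    refine ⟨c.hd j, h4, c'.hd j, h5, h2 j, (hR.2 j).1, (R'.2 j).1, (hR.2 j).2 _ h4, ?_, ?_⟩
    · have h6 := (R'.2 j).2 _ h4
      rw [h3 j, if_pos rfl] at h6
      exact h6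
    · intro y hy hyp s hsU'
      have h6 := (R'.2 j).2 y hy s hsU'
      rw [h3 j y, if_neg hyp] at h6
      exact ((hR.2 j).2 y hy s hsU').trans h6.symm

end Pool.Agent.H77.JS
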