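import Pool.Agent.H8.JS.Targets

/-!
# The remaining rows of a tiling together
-/

set_option autoImplicit false

namespace Pool.Agent.H77.JS

open Pool.Agent.H8.JS

theorem pf_g1 : J_G1 := by
  intro T U Hh Vv L b
  induction b with
  | zero =>
    intro fr pr
    exact ⟨fun _ => ⟨fun _ _ => pr 0, fun k hk => absurd hk (by omega)⟩, fun _ => trivial⟩
  | succ b ih =>
    intro fr pr
    constructor
    · rintro ⟨u, h1, h2⟩
      obtain ⟨t', h3⟩ := (ih false u).mp h2
      refine ⟨fun x k => if k = 0 then u x else t' x (k - 1), ?_⟩
      intro k hk
      cases k with
      | zero =>
        have e1 : decide (0 + 1 = b + 1) = decide (b = 0) := by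
          apply decide_eq_decide.mpr
          omega
        rw [e1]
        simpa using h1
      | succ k =>
        have h4 := h3 k (by omega)
        have e1 : decide (k + 1 + 1 = b + 1) = decide (k + 1 = b) := by
          apply decide_eq_decide.mpr
          omega
        rw [e1]
        have e2 : (if k = 0 then u else fun x => t' x (k - 1)) =
            fun x => if k = 0 then u x else t' x (k - 1) := by
          split_ifs <;> rfl
        rw [e2] at h4
        simpa using h4
    · rintro ⟨t, h⟩
      refine ⟨fun x => t x 0, ?_, (ih false _).mpr ⟨fun x k => t x (k + 1), ?_⟩⟩
      · have h1 := h 0 (by omega)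
        have e1 : decide (0 + 1 = b + 1) = decide (b = 0) := by
          apply decide_eq_decide.mpr
          omega
        rw [e1] at h1
        simpa using h1
      · intro k hk
        have h1 := h (k + 1) (by omega)
        have e1 : decide (k + 1 + 1 = b + 1) = decide (k + 1 = b) := by
          apply decide_eq_decide.mpr
          omega
        rw [e1] at h1
        have e2 : (if k = 0 then (fun x => t x 0) else fun x => t x (k - 1 + 1)) =
            fun x => t x k := by
          split_ifs with h0
          · rw [h0]
          · have : k - 1 + 1 = k := by omega
            rw [this]
        rw [e2]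
        simpa using h1

end Pool.Agent.H77.JS
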