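import Pool.Agent.H8.JS.Targets

/-!
# Positions of the heads
-/

set_option autoImplicit false

namespace Pool.Agent.H77.JS

open Pool.Agent.H8.JS

theorem go_le (d : Mv) (p : ℕ) : d.go p ≤ p + 1 := by
  cases d <;> simp only [Mv.go] <;> omega

theorem pf_hb : J_HB := by
  intro M x l c hc t
  induction t with
  | zero =>
    intro _ j
    rw [hc.1]
    exact le_refl 0
  | succ t ih =>
    intro ht j
    obtain ⟨a', d, h1, h2, h3⟩ := hc.2 t (by omega)
    rw [h2 j]
    exact (go_le _ _).trans (Nat.succ_le_succ (ih (by omega) j))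

end Pool.Agent.H77.JS
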