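import Pool.Agent.H8.JS.Targets

/-!
# The first step of the Turing machine of a machine with counters
-/

set_option autoImplicit false

namespace Pool.Agent.H77.JS

open Pool.Agent.H8.JS

section
variable (M : CW) (e : Prop) (x : List Bool)

theorem t1_i0 (p : ℕ) : (init (tm M e) x).tp (0 : Fin (M.k + 1 + 1)) p = isy M x[p]? := by
  show (match x[p]? with
    | some b => Sym.bit b
    | none => Sym.bl) = isy M x[p]?
  cases x[p]? <;> rfl

theorem t1_is (j : Fin (M.k + 1)) (p : ℕ) :
    (init (tm M e) x).tp (Fin.succ j : Fin (M.k + 1 + 1)) p = .bl := by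
  have h : (Fin.succ j : Fin (M.k + 1 + 1)) ≠ 0 := Fin.succ_ne_zero j
  show (if (Fin.succ j : Fin (M.k + 1 + 1)) = 0 then (match x[p]? with
    | some b => Sym.bit b
    | none => Sym.bl) else Sym.bl) = Sym.bl
  rw [if_neg h]

theorem t1_el (c : CC M) (p : ℕ) :
    (emb M e x c).tp (Fin.succ (Fin.last M.k) : Fin (M.k + 1 + 1)) p = wsy M (c.w p) := by
  have h : ∀ (a : ℕ → Sym (Option M.A)) (f : Fin M.k → ℕ → Sym (Option M.A))
      (b : ℕ → Sym (Option M.A)), (Fin.cons a (Fin.snoc f b) : Fin (M.k + 2) → ℕ →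
        Sym (Option M.A)) (Fin.succ (Fin.last M.k)) = b := by
    intro a f b
    simp
  exact congrFun (h (fun p => isy M x[p]?) (fun _ p => csy M (decide (p = 0)))
    (fun p => wsy M (c.w p))) p

theorem t1_ec (c : CC M) (j : Fin M.k) (p : ℕ) :
    (emb M e x c).tp (Fin.succ (Fin.castSucc j) : Fin (M.k + 1 + 1)) p =
      csy M (decide (p = 0)) := by
  have h : ∀ (a : ℕ → Sym (Option M.A)) (f : Fin M.k → ℕ → Sym (Option M.A))
      (b : ℕ → Sym (Option M.A)), (Fin.cons a (Fin.snoc f b) : Fin (M.k + 2) → ℕ →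
        Sym (Option M.A)) (Fin.succ (Fin.castSucc j)) = f j := by
    intro a f b
    simp
  exact congrFun (h (fun p => isy M x[p]?) (fun _ p => csy M (decide (p = 0)))
    (fun p => wsy M (c.w p))) p

theorem t1_a (a b : Sym (Option M.A)) (f : Sym (Option M.A)) :
    (Fin.cons a (Fin.snoc (fun _ : Fin M.k => f) b) : Fin (M.k + 2) → Sym (Option M.A)) 0 = a ∧
    (Fin.cons a (Fin.snoc (fun _ : Fin M.k => f) b) : Fin (M.k + 2) → Sym (Option M.A))
      (Fin.succ (Fin.last M.k)) = b ∧ ∀ j : Fin M.k,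
    (Fin.cons a (Fin.snoc (fun _ : Fin M.k => f) b) : Fin (M.k + 2) → Sym (Option M.A))
      (Fin.succ (Fin.castSucc j)) = f := by
  refine ⟨rfl, by simp, fun j => by simp⟩

theorem t1_hd (j : Fin (M.k + 1 + 1)) : (emb M e x (cinit M)).hd j = 0 := by
  have h : ∀ j : Fin (M.k + 2), (Fin.cons 0 (Fin.snoc (fun _ : Fin M.k => 0) 0) :
      Fin (M.k + 2) → ℕ) j = 0 := by
    intro j
    refine Fin.cases ?_ (fun j => ?_) j
    · rfl
    · refine Fin.lastCases ?_ (fun j => ?_) j
      · simp
      · simp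
  exact h j

theorem t1_key (j : Fin (M.k + 1 + 1)) (p : ℕ) : (if p = 0 then
      (Fin.cons ((init (tm M e) x).tp (0 : Fin (M.k + 1 + 1)) 0) (Fin.snoc (fun _ : Fin M.k =>
        (csy M true : Sym (Option M.A))) ((init (tm M e) x).tp (Fin.last (M.k + 1)) 0)) :
          Fin (M.k + 2) → Sym (Option M.A)) j
      else (init (tm M e) x).tp j p) = (emb M e x (cinit M)).tp j p := by
  have hl : (init (tm M e) x).tp (Fin.last (M.k + 1)) 0 = .bl := t1_is M e x (Fin.last M.k) 0
  by_cases hp : p = 0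
  · rw [if_pos hp]
    subst hp
    refine Fin.cases ?_ (fun j => ?_) j
    · exact (t1_a M _ _ _).1.trans (t1_i0 M e x 0)
    · refine Fin.lastCases ?_ (fun j => ?_) j
      · exact (t1_a M _ _ _).2.1.trans (hl.trans (t1_el M e x (cinit M) 0).symm)
      · exact ((t1_a M _ _ _).2.2 j).trans (t1_ec M e x (cinit M) j 0).symm
  · rw [if_neg hp]
    refine Fin.cases ?_ (fun j => ?_) j
    · exact t1_i0 M e x p
    · refine (t1_is M e x j p).trans ?_
      refine Fin.lastCases ?_ (fun j => ?_) j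
      · exact (t1_el M e x (cinit M) p).symm
      · refine Eq.trans ?_ (t1_ec M e x (cinit M) j p).symm
        rw [decide_eq_false hp]
        rfl

end

theorem pf_t1 : J_T1 := by
  intro M e x hx c
  have h0 : (init (tm M e) x).tp (0 : Fin (M.k + 1 + 1)) 0 ≠ .bl := by
    rw [t1_i0]
    cases x with
    | nil => exact absurd rfl hx
    | cons b x =>
      intro h
      have h' : (Sym.bit b : Sym (Option M.A)) = .bl := h
      cases h'
  constructor
  · rintro ⟨a', d, h1, h2, h3⟩
    rcases h1 with h1 | ⟨h1, h4, h5, h6⟩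
    · exact absurd h1.1 h0
    · refine Cfg.ext h4 ?_ ?_
      · funext j
        rw [h2 j, h5]
        exact (t1_hd M e x j).symm
      · funext j p
        rw [h3 j p, h6]
        exact t1_key M e x j p
  · rintro rfl
    refine ⟨_, _, Or.inr ⟨h0, rfl, rfl, rfl⟩, ?_, ?_⟩
    · intro j
      exact t1_hd M e x j
    · intro j p
      exact (t1_key M e x j p).symm

end Pool.Agent.H77.JS
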