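import Pool.Agent.H8.JS.Targets

/-!
# Transition systems related by a function
-/

set_option autoImplicit false

namespace Pool.Agent.H77.JS

open Pool.Agent.H8.JS

theorem tf_lift {C D : Type} {S : C → C → Prop} {S' : D → D → Prop} {f : C → D}
    (hS : ∀ c d, S' (f c) d ↔ ∃ c', S c c' ∧ d = f c') (l : ℕ) :
    ∀ (g : ℕ → D) (c : C), g 0 = f c → (∀ i < l, S' (g i) (g (i + 1))) →
      ∃ h : ℕ → C, h 0 = c ∧ (∀ i < l, S (h i) (h (i + 1))) ∧ ∀ i ≤ l, g i = f (h i) := by
  induction l with
  | zero =>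
    intro g c h0 _
    refine ⟨fun _ => c, rfl, fun i hi => absurd hi (by omega), fun i hi => ?_⟩
    have : i = 0 := by omega
    rw [this]
    exact h0
  | succ l ih =>
    intro g c h0 hs
    have h1 := hs 0 (by omega)
    rw [h0, hS] at h1
    obtain ⟨c', h2, h3⟩ := h1
    obtain ⟨h, h4, h5, h6⟩ := ih (fun i => g (i + 1)) c' h3 (fun i hi => hs (i + 1) (by omega))
    refine ⟨fun i => if i = 0 then c else h (i - 1), rfl, ?_, ?_⟩
    · intro i hi
      cases i with
      | zero =>
        simp only [zero_add, if_true, Nat.one_ne_zero, if_false, Nat.sub_self]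
        rw [h4]
        exact h2
      | succ i =>
        simp only [Nat.add_one_ne_zero, if_false, Nat.add_sub_cancel]
        exact h5 i (by omega)
    · intro i hi
      cases i with
      | zero =>
        simp only [if_true]
        exact h0
      | succ i =>
        simp only [Nat.add_one_ne_zero, if_false, Nat.add_sub_cancel]
        exact h6 i (by omega)

theorem pf_tf : J_TF := by
  intro C D S S' A A' f hS hA c
  refine ⟨⟨?_, ?_⟩, fun T => ⟨?_, ?_⟩⟩
  · rintro ⟨l, g, h0, h1, h2⟩
    obtain ⟨h, h3, h4, h5⟩ := tf_lift hS l g c h0 h1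
    refine ⟨l, h, h3, h4, ?_⟩
    rw [h5 l le_rfl, hA] at h2
    exact h2
  · rintro ⟨l, h, h0, h1, h2⟩
    exact ⟨l, fun i => f (h i), congrArg f h0, fun i hi => (hS _ _).mpr ⟨_, h1 i hi, rfl⟩,
      (hA _).mpr h2⟩
  · intro H l h h0 h1
    exact H l (fun i => f (h i)) (congrArg f h0) (fun i hi => (hS _ _).mpr ⟨_, h1 i hi, rfl⟩)
  · intro H l g h0 h1
    obtain ⟨h, h3, h4, h5⟩ := tf_lift hS l g c h0 h1
    exact H l h h3 h4

end Pool.Agent.H77.JS
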